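import Pool.Agent.helper27.CHS.Spec

/-! Project chs, row OC: passing to the next octave. -/

set_option autoImplicit false

open Finset Pool.Agent.SX

namespace Pool.Agent.CHS

theorem OC_allB (n : ℕ) (p : ℕ → Bool) (h : allB n p = true) : ∀ i < n, p i = true := by
  induction n with
  | zero => intro i hi; omega
  | succ n ih =>
    have h1 : (p n && allB n p) = true := h
    rw [Bool.and_eq_true] at h1
    intro i hi
    rcases Nat.lt_succ_iff_lt_or_eq.mp hi with h2 | h2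
    · exact ih h1.2 i h2
    · rw [h2]; exact h1.1

theorem OC_chk (m L L' : ℕ) (h : chkO m L L' = true) (i : ℕ) (hi : i < 601) (hm : m ≤ i) :
    (i ≤ 300 → dig L (2 * i) ≤ dig L' i) ∧
    (300 < i → 600 * 1099511627776 ≤ dig L' i * 3 ^ (i / 20)) := by
  have h1 := OC_allB 601 _ h i hi
  simp only [Bool.or_eq_true] at h1
  rcases h1 with h1 | h1
  · have : i < m := by simpa [Nat.blt_eq] using h1
    omega
  · constructor
    · intro h2
      have h3 : Nat.ble i 300 = true := Nat.ble_eq.mpr h2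
      rw [h3] at h1
      exact Nat.ble_eq.mp h1
    · intro h2
      have h3 : Nat.ble i 300 = false := by
        rw [← Bool.not_eq_true, Nat.ble_eq]
        omega
      rw [h3] at h1
      exact Nat.ble_eq.mp h1

theorem OC_div (L i m : ℕ) (h : 600 * 1099511627776 ≤ dig L i * 3 ^ m) :
    (600 : ℝ) / 3 ^ m ≤ (dig L i : ℝ) / 2 ^ 40 := by
  rw [div_le_div_iff₀ (by positivity) (by positivity)]
  have h1 : ((600 * 1099511627776 : ℕ) : ℝ) ≤ ((dig L i * 3 ^ m : ℕ) : ℝ) := by exact_mod_cast h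
  push_cast at h1
  norm_num at h1 ⊢
  exact h1

theorem OC_le {a b : ℕ} (h : a ≤ b) : (a : ℝ) / 2 ^ 40 ≤ (b : ℝ) / 2 ^ 40 :=
  div_le_div_of_nonneg_right (by exact_mod_cast h) (by positivity)

theorem OC (hMB : MB_stmt) : OC_stmt := by
  intro x w L U L' U' hx hw hT hTail hL hU
  obtain ⟨mL, mU, -, -⟩ := hMB
  have e1 : ((20 : ℕ) : ℝ) * (2 * w) = ((40 : ℕ) : ℝ) * w := by push_cast; ring
  have e2 : ((20 : ℕ) : ℝ) * (2 * w) = 40 * w := by push_cast; ring
  have hb : ∀ i : ℕ, ((i / 20 : ℕ) : ℝ) * (40 * w) ≤ (i : ℝ) * (2 * w) := by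
    intro i
    have h1 : i / 20 * 20 ≤ i := Nat.div_mul_le_self i 20
    have h2 : ((i / 20 : ℕ) : ℝ) * 20 ≤ (i : ℝ) := by exact_mod_cast h1
    nlinarith
  have hc : ∀ i : ℕ, ((2 * i : ℕ) : ℝ) * w ≤ (i : ℝ) * (2 * w) := by
    intro i
    push_cast
    exact le_of_eq (by ring)
  refine ⟨fun i hi => ?_, fun i h20 hi => ?_⟩
  · obtain ⟨c1, c2⟩ := OC_chk 0 L L' hL i hi (by omega)
    rcases Nat.lt_or_ge 300 i with h | h
    · rw [e2]
      exact mL x (40 * w) _ _ _ _ hx (hb i) (OC_div L' i (i / 20) (c2 h))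
        (hTail (i / 20) (by omega)).1
    · rw [e1]
      exact mL x _ _ _ _ _ hx (hc i) (OC_le (c1 h)) (hT.1 (2 * i) (by omega))
  · obtain ⟨c1, c2⟩ := OC_chk 20 U U' hU i hi h20
    rcases Nat.lt_or_ge 300 i with h | h
    · rw [e2]
      exact mU x (40 * w) _ _ _ _ hx (hb i) (OC_div U' i (i / 20) (c2 h))
        (hTail (i / 20) (by omega)).2
    · rw [e1]
      exact mU x _ _ _ _ _ hx (hc i) (OC_le (c1 h)) (hT.2 (2 * i) (by omega) (by omega))

end Pool.Agent.CHS
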